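import Pool.Agent.Lib.MP_c5d73d_lc.F.Defs

/-!
# Ultrapowers of `(P(ω), ⊆)` in a universe

As in `Pool.Agent.Lib.MP_100a6c_lc.Defs` and `Pool.Agent.Lib.MP_c5d73d_lc.F.Defs`, all notions are
written once, for an arbitrary `Str B U`: a collection `U` with membership and equality relations
with values in a complete Boolean algebra `B`.  For `B = Prop` this is the usual meaning in the
structure; for `VB B` it is the Boolean value of the notion in the Boolean-valued universe `V^B`.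
-/

universe v w

open scoped symmDiff

namespace Pool.Agent.Lib.MP_6b029b_lc.U

open Pool.Agent.Lib.MP_100a6c_lc Pool.Agent.Lib.MP_c5d73d_lc.F

variable {B : Type v} {U : Type w} [CompleteBooleanAlgebra B] (S : Str B U)

/-- `{n : f(n) = g(n)} ∈ x`: some `a ∈ x` has `f(n) = g(n)` for all `n ∈ a`. -/
def ueq (x f g : U) : B :=
  ⨆ a, S.mem a x ⊓ ⨅ n, ⨅ y, ⨅ z, S.mem n a ⊓ S.rel f n y ⊓ S.rel g n z ⇨ S.eq y z

/-- `{n : f(n) ⊆ g(n)} ∈ x`: some `a ∈ x` has `f(n) ⊆ g(n)` for all `n ∈ a`. -/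
def ule (x f g : U) : B :=
  ⨆ a, S.mem a x ⊓ ⨅ n, ⨅ y, ⨅ z, S.mem n a ⊓ S.rel f n y ⊓ S.rel g n z ⇨ S.sub y z

/-- `t` is an element of the ultrapower of `c` by the ultrafilter `x` on `w`: the class
`{g : w → c : {n : f(n) = g(n)} ∈ x}` of a function `f : w → c`. -/
def isCls (w c x t : U) : B :=
  ⨆ f, S.isFun f w c ⊓ ⨅ g, S.mem g t ⇔ (S.isFun g w c ⊓ ueq S x f g)

/-- `t ≤ t'` in the ultrapower of `(c, ⊆)` by `x`: `f ∈ t` and `g ∈ t'` for some `f` and `g` with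
`{n : f(n) ⊆ g(n)} ∈ x`. -/
def cle (x t t' : U) : B := ⨆ f, ⨆ g, S.mem f t ⊓ S.mem g t' ⊓ ule S x f g

/-- `e` is an order-embedding of `(P, ⊆)` into the ultrapower of `(c, ⊆)` by the ultrafilter `x`
on `w`: `e` assigns to every `p ∈ P` exactly one element of the ultrapower, and `p ⊆ q` iff
`e(p) ≤ e(q)` for all `p, q ∈ P`. -/
def isEmb (w c x P e : U) : B :=
  (⨅ p, S.mem p P ⇨ ⨆ t, S.rel e p t) ⊓
  (⨅ p, ⨅ t, S.mem p P ⊓ S.rel e p t ⇨ isCls S w c x t) ⊓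
  (⨅ p, ⨅ t, ⨅ t', S.rel e p t ⊓ S.rel e p t' ⇨ S.eq t t') ⊓
  ⨅ p, ⨅ q, ⨅ t, ⨅ t', S.mem p P ⊓ S.mem q P ⊓ S.rel e p t ⊓ S.rel e q t' ⇨
    (S.sub p q ⇔ cle S x t t')

/-- There are a nonprincipal ultrafilter `x` on `w = ω` and a set `P` of cardinality `2^ω` such
that the partially ordered set `(P, ⊆)` has no order-embedding into the ultrapower of `(c, ⊆)` by
`x`, where `c` is the power set of `ω`. -/
def NotUniv : B :=
  ⨆ w, ⨆ c, ⨆ x, ⨆ P, isOm S w ⊓ isPow S c w ⊓ isNPU S w x ⊓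
    (S.leCard P c ⊓ S.leCard c P) ⊓ (⨆ e, isEmb S w c x P e)ᶜ

end Pool.Agent.Lib.MP_6b029b_lc.U
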