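import Pool.Agent.Lib.MP_c5d73d_lc.F.TDefs

/-!
# Typed notions
-/

universe u

open scoped symmDiff

namespace Pool.Agent.Lib.MP_6b029b_lc.U

open Pool.Agent.Lib.MP_100a6c_lc Pool.Agent.Lib.MP_c5d73d_lc.F

/-- The order of the ultrapower: the Boolean value of `{n : f(n) ⊆ g(n)} ∈ x`. -/
def lex {B : Type u} [CompleteBooleanAlgebra B] (x : Rl B → B) (f g : ℕ → Rl B) : B :=
  x fun n => ⨅ k, (f n k ⇨ g n k)

/-- `x` is a nonprincipal ultrafilter in `V^B`, `le` is a `B`-valued partial order on `J` which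
cannot be embedded into the ultrapower of `P(ω)` by `x`, and `2^ω = |J|` in `V^B`. -/
structure UModel (J : Type u) (B : Type u) [CompleteBooleanAlgebra B] (x : Rl B → B)
    (le : J → J → B) : Prop where
  nontriv : (⊥ : B) ≠ ⊤
  nu : NU x
  refl : ∀ i, le i i = ⊤
  trans : ∀ i j k, le i j ⊓ le j k ≤ le i k
  antisymm : ∀ i j, i ≠ j → le i j ⊓ le j i = ⊥
  noemb : ∀ Γ : B, Γ ≠ ⊥ → ∀ f : J → ℕ → Rl B, ∃ i j, ¬ Γ ≤ (le i j ⇔ lex x (f i) (f j))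
  inj : ∃ s : J → Rl B, ∀ i j, i ≠ j → (⨅ n, (s i n ⇔ s j n)) = ⊥
  enum : ∃ r : J → Rl B, ∀ a : Rl B, (⨆ i, ⨅ n, (r i n ⇔ a n)) = ⊤

end Pool.Agent.Lib.MP_6b029b_lc.U
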