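import Pool.Agent.Lib.MP_6b029b_lc.U.Defs
import Pool.Agent.Lib.MP_6b029b_lc.U.TDefs
import Pool.Agent.Lib.MP_c5d73d_lc.F.IfaceW

/-!
# Statements of the modules
-/

universe u v w

open Cardinal Filter

open scoped symmDiff

namespace Pool.Agent.Lib.MP_6b029b_lc.U

open Pool.Agent.Lib.MP_100a6c_lc Pool.Agent.Lib.MP_c5d73d_lc.F

/-- DS: a Δ-system argument. -/
def DsStatement : Prop := ∀ (K T : Type u), 𝔠 < #K → #T ≤ 𝔠 → ∀ (τ : K → T) (e : K → ℕ → K),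
  (∀ ξ, Function.Injective (e ξ)) → ∃ ξ η, ξ ≠ η ∧ τ ξ = τ η ∧ ∀ m n, e ξ m = e η n → m = n

/-! ## The Boolean-valued universe -/

/-- VPO: names of sets whose inclusion is the given order. -/
def VpoStatement : Prop := ∀ (B : Type u) [CompleteBooleanAlgebra B] (J : Type u)
  (le : J → J → B), (∀ i, le i i = ⊤) → (∀ i j k, le i j ⊓ le j k ≤ le i k) →
    ∃ A : J → BName B, ∀ i j, (VB B).sub (A i) (A j) = le i j

/-- VCARD: `2^ω = |J|`. -/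
def VcardStatement : Prop := ∀ (B : Type u) [CompleteBooleanAlgebra B] (J : Type u)
  (A : J → BName B), (∀ i j, i ≠ j → BName.beq (A i) (A j) = ⊥) →
  (∃ s : J → Rl B, ∀ i j, i ≠ j → (⨅ n, (s i n ⇔ s j n)) = ⊥) →
  (∃ r : J → Rl B, ∀ a : Rl B, (⨆ i, ⨅ n, (r i n ⇔ a n)) = ⊤) →
    (VB B).leCard (BName.mk J A fun _ => ⊤) Pw ⊓ (VB B).leCard Pw (BName.mk J A fun _ => ⊤) = ⊤

/-- The typed name of a function `f` from `ω` to `P(ω)`: the Boolean value of `k ∈ f(n)`. -/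
noncomputable def fr {B : Type u} [CompleteBooleanAlgebra B] (f : BName B) (n : ℕ) : Rl B :=
  fun k => ⨆ y, (VB B).rel f (BName.check (H36.nn n)) y ⊓ BName.bmem (BName.check (H36.nn k)) y

/-- VLE: functions from `ω` to `P(ω)` and their order in the ultrapower. -/
def VleStatement : Prop := ∀ (B : Type u) [CompleteBooleanAlgebra B] (x : Rl B → B), NU x →
  ∀ (Γ : B) (f g : BName B), Γ ≤ (VB B).isFun f (BName.check H36.om) Pw →
    Γ ≤ (VB B).isFun g (BName.check H36.om) Pw →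
      Γ ⊓ ule (VB B) (un x) f g = Γ ⊓ lex x (fr f) (fr g) ∧
      Γ ⊓ ueq (VB B) (un x) f g = Γ ⊓ x fun n => ⨅ k, (fr f n k ⇔ fr g n k)

/-- VEMB: no embedding. -/
def VembStatement : Prop := ∀ (B : Type u) [CompleteBooleanAlgebra B] (x : Rl B → B), NU x →
  ∀ (J : Type u) (A : J → BName B), (∀ Γ : B, Γ ≠ ⊥ → ∀ f : J → ℕ → Rl B, ∃ i j,
    ¬ Γ ≤ ((VB B).sub (A i) (A j) ⇔ lex x (f i) (f j))) →
    (⨆ e, isEmb (VB B) (BName.check H36.om) Pw (un x) (BName.mk J A fun _ => ⊤) e) = ⊥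

/-! ## Two-valued models -/

/-- LOSA: the quotient of `V^B` by an ultrafilter. -/
def LosaStatement : Prop := ∀ (B : Type u) [CompleteBooleanAlgebra B], (⊥ : B) ≠ ⊤ →
  ∃ (M : Type (u + 1)) (E : M → M → Prop) (π : BName B → M) (W : Set B),
    ⊤ ∈ W ∧ ⊥ ∉ W ∧ (∀ a b, a ⊓ b ∈ W ↔ a ∈ W ∧ b ∈ W) ∧ (∀ a, aᶜ ∈ W ↔ a ∉ W) ∧
    Function.Surjective π ∧ ∀ (n : ℕ) (φ : Fml n) (v : Fin n → BName B),
      val (⟨E, Eq⟩ : Str Prop M) φ (fun i => π (v i)) ↔ val (VB B) φ v ∈ W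

/-- LOSB: the notions are given by formulas. -/
def LosbStatement : Prop := (∃ φ : Fml 0, ∀ (B : Type v) (U : Type w) [CompleteBooleanAlgebra B]
    (S : Str B U), zfcBase S = val S φ Fin.elim0) ∧
  ∃ φ : Fml 0, ∀ (B : Type v) (U : Type w) [CompleteBooleanAlgebra B]
    (S : Str B U), NotUniv S = val S φ Fin.elim0

/-- LOSC: two-valued models of ZFC. -/
def LoscStatement : Prop := ∀ (B : Type) [CompleteBooleanAlgebra B], (⊥ : B) ≠ ⊤ →
  ZFC (VB B) = ⊤ → NotUniv (VB B) = ⊤ →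
    ∃ (M : Type 1) (E : M → M → Prop), ZFC (⟨E, Eq⟩ : Str Prop M) ∧
      NotUniv (⟨E, Eq⟩ : Str Prop M)

end Pool.Agent.Lib.MP_6b029b_lc.U
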